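import Pool.Agent.H97.PR.Targets

/-!
# Janson inequality (helper16, pry_modules JAN)
-/

set_option autoImplicit false

namespace Pool.Agent.H16.PRY

open Finset Pool.Agent.H97.PR

open Classical in
/-- the number of the sets disjoint from `T` -/
noncomputable def xx {Ω X : Type} [Fintype X] (A : X → Finset Ω) (T : Finset Ω) : ℕ :=
  (univ.filter fun x => Disjoint (A x) T).card

/-- the generating function -/
noncomputable def psi {Ω X : Type} [Fintype Ω] [Fintype X] (A : X → Finset Ω) (t : ℝ) : ℝ :=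
  ∑ T : Finset Ω, Real.exp (-(t * xx A T))

section

variable {Ω X : Type} [Fintype Ω] [Fintype X]

open Classical in
/-- the subsets disjoint from `S` -/
theorem card_disj (S : Finset Ω) :
    ((univ.filter fun T : Finset Ω => Disjoint S T).card : ℝ) =
      2 ^ Fintype.card Ω * (1 / 2 : ℝ) ^ S.card := by
  have h1 : (univ.filter fun T : Finset Ω => Disjoint S T) = (univ \ S).powerset := by
    ext T
    simp only [mem_filter, mem_univ, true_and, mem_powerset]
    constructor
    · intro h a ha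
      rw [mem_sdiff]
      exact ⟨mem_univ a, fun hs => (disjoint_left.1 h hs ha)⟩
    · intro h
      rw [disjoint_left]
      intro a ha hT
      exact (mem_sdiff.1 (h hT)).2 ha
  rw [h1, card_powerset, card_univ_sdiff]
  have h2 : S.card ≤ Fintype.card Ω := card_le_univ S
  push_cast
  rw [one_div, inv_pow, ← div_eq_mul_inv, eq_div_iff (by positivity), ← pow_add,
    Nat.sub_add_cancel h2]

open Classical in
/-- sums of functions of `T \ S` -/
theorem sum_sdiff_eq (S : Finset Ω) (F : Finset Ω → ℝ) :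
    ∑ T : Finset Ω, F (T \ S) =
      2 ^ S.card * ∑ T ∈ univ.filter (fun T : Finset Ω => Disjoint S T), F T := by
  have hmap : ∀ T ∈ (univ : Finset (Finset Ω)),
      T \ S ∈ univ.filter (fun T : Finset Ω => Disjoint S T) := by
    intro T _
    rw [mem_filter]
    exact ⟨mem_univ _, disjoint_sdiff⟩
  rw [← sum_fiberwise_of_maps_to hmap, mul_sum]
  refine sum_congr rfl fun T hT => ?_
  have hd : Disjoint S T := (mem_filter.1 hT).2
  have h1 : ∑ U ∈ univ.filter (fun U : Finset Ω => U \ S = T), F (U \ S) =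
      ∑ U ∈ univ.filter (fun U : Finset Ω => U \ S = T), F T :=
    sum_congr rfl fun U hU => by rw [(mem_filter.1 hU).2]
  rw [h1, sum_const, nsmul_eq_mul]
  congr 1
  have h2 : (univ.filter (fun U : Finset Ω => U \ S = T)).card = S.powerset.card := by
    refine card_nbij' (fun U => U ∩ S) (fun V => T ∪ V) ?_ ?_ ?_ ?_
    · intro U _
      simp only [coe_powerset, Set.mem_preimage, Set.mem_powerset_iff, coe_subset]
      exact inter_subset_right
    · intro V hV
      simp only [coe_powerset, Set.mem_preimage, Set.mem_powerset_iff, coe_subset] at hV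
      simp only [coe_filter, mem_univ, true_and, Set.mem_ofPred_eq]
      ext a
      simp only [mem_sdiff, mem_union]
      constructor
      · rintro ⟨h | h, h'⟩
        · exact h
        · exact absurd (hV h) h'
      · intro h
        exact ⟨Or.inl h, fun hs => disjoint_left.1 hd hs h⟩
    · intro U hU
      simp only [coe_filter, mem_univ, true_and, Set.mem_ofPred_eq] at hU
      show T ∪ U ∩ S = U
      rw [← hU]
      exact sdiff_union_inter U S
    · intro V hV
      simp only [coe_powerset, Set.mem_preimage, Set.mem_powerset_iff, coe_subset] at hV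
      ext a
      simp only [mem_inter, mem_union]
      constructor
      · rintro ⟨h | h, h'⟩
        · exact absurd h (disjoint_left.1 hd h')
        · exact h
      · intro h
        exact ⟨Or.inr h, hV h⟩
  rw [h2, card_powerset]
  push_cast
  rfl

open Classical in
/-- one point -/
theorem one_pt (A : X → Finset Ω) (x : X) (t : ℝ) (ht : 0 ≤ t) :
    psi A t * ((1 / 2 : ℝ) ^ (A x).card -
        t * ∑ y, if Disjoint (A x) (A y) then 0 else (1 / 2 : ℝ) ^ (A x ∪ A y).card) ≤
      ∑ T : Finset Ω, (if Disjoint (A x) T then (1 : ℝ) else 0) * Real.exp (-(t * xx A T)) := by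
  set q : ℝ := ∑ y, if Disjoint (A x) (A y) then 0 else (1 / 2 : ℝ) ^ (A x ∪ A y).card with hq
  set P : ℝ := 2 ^ Fintype.card Ω with hP
  set p : ℝ := (1 / 2 : ℝ) ^ (A x).card with hp
  have hP0 : 0 < P := by positivity
  have hp0 : 0 < p := by positivity
  have hpsi : 0 ≤ psi A t := sum_nonneg fun T _ => (Real.exp_pos _).le
  let mm : Finset Ω → ℝ := fun T => if Disjoint (A x) T then (1 : ℝ) else 0
  let Y : Finset Ω → ℕ := fun T =>
    (univ.filter fun y => ¬ Disjoint (A x) (A y) ∧ Disjoint (A y) T).card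
  let Z : Finset Ω → ℕ := fun T =>
    (univ.filter fun y => Disjoint (A x) (A y) ∧ Disjoint (A y) T).card
  have hXYZ : ∀ T, xx A T = Y T + Z T := by
    intro T
    show (univ.filter fun x => Disjoint (A x) T).card = _
    rw [← card_union_of_disjoint]
    · congr 1
      ext y
      simp only [mem_filter, mem_univ, true_and, mem_union]
      tauto
    · rw [disjoint_left]
      intro y h1 h2
      simp only [mem_filter, mem_univ, true_and] at h1 h2
      exact h1.1 h2.1
  have hmm0 : ∀ T, 0 ≤ mm T := by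
    intro T
    show (0 : ℝ) ≤ if Disjoint (A x) T then (1 : ℝ) else 0
    split_ifs <;> norm_num
  have hYanti : ∀ T U : Finset Ω, T ≤ U → Y U ≤ Y T := by
    intro T U h
    refine card_le_card fun y hy => ?_
    simp only [mem_filter, mem_univ, true_and] at hy ⊢
    exact ⟨hy.1, hy.2.mono_right h⟩
  have hZanti : ∀ T U : Finset Ω, T ≤ U → Z U ≤ Z T := by
    intro T U h
    refine card_le_card fun y hy => ?_
    simp only [mem_filter, mem_univ, true_and] at hy ⊢
    exact ⟨hy.1, hy.2.mono_right h⟩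
  have hmono : ∀ (V : Finset Ω → ℕ), (∀ T U : Finset Ω, T ≤ U → V U ≤ V T) →
      Monotone (fun T => Real.exp (-(t * (V T : ℝ)))) := by
    intro V hV T U h
    apply Real.exp_le_exp.2
    have h1 : (V U : ℝ) ≤ V T := by exact_mod_cast hV T U h
    have := mul_le_mul_of_nonneg_left h1 ht
    linarith
  have hlat : ∀ a b : Finset Ω, mm a * mm b ≤ mm (a ⊓ b) * mm (a ⊔ b) := by
    intro a b
    by_cases ha : Disjoint (A x) a
    · by_cases hb : Disjoint (A x) b
      · have h1 : Disjoint (A x) (a ⊓ b) := ha.mono_right inf_le_left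
        have h2 : Disjoint (A x) (a ⊔ b) := disjoint_sup_right.2 ⟨ha, hb⟩
        show (if Disjoint (A x) a then (1 : ℝ) else 0) * (if Disjoint (A x) b then (1 : ℝ) else 0) ≤
          (if Disjoint (A x) (a ⊓ b) then (1 : ℝ) else 0) *
            (if Disjoint (A x) (a ⊔ b) then (1 : ℝ) else 0)
        rw [if_pos ha, if_pos hb, if_pos h1, if_pos h2]
      · have : mm b = 0 := if_neg hb
        rw [this, mul_zero]
        exact mul_nonneg (hmm0 _) (hmm0 _)
    · have : mm a = 0 := if_neg ha
      rw [this, zero_mul]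
      exact mul_nonneg (hmm0 _) (hmm0 _)
  have hfkg := fkg (μ := mm) (f := fun T => Real.exp (-(t * (Y T : ℝ))))
    (g := fun T => Real.exp (-(t * (Z T : ℝ)))) hmm0 (fun T => (Real.exp_pos _).le)
    (fun T => (Real.exp_pos _).le) (hmono Y hYanti) (hmono Z hZanti) hlat
  have hsum : ∀ F : Finset Ω → ℝ, ∑ T, mm T * F T =
      ∑ T ∈ univ.filter (fun T : Finset Ω => Disjoint (A x) T), F T := by
    intro F
    rw [sum_filter]
    refine sum_congr rfl fun T _ => ?_
    show (if Disjoint (A x) T then (1 : ℝ) else 0) * F T = _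
    split_ifs
    · rw [one_mul]
    · rw [zero_mul]
  have hm1 : ∑ T, mm T = P * p := by
    have h1 := hsum fun _ => 1
    simp only [mul_one] at h1
    rw [h1, sum_const, nsmul_eq_mul, mul_one, card_disj]
  have hexp : ∀ T, Real.exp (-(t * (Y T : ℝ))) * Real.exp (-(t * (Z T : ℝ))) =
      Real.exp (-(t * (xx A T : ℝ))) := by
    intro T
    rw [← Real.exp_add, hXYZ]
    congr 1
    push_cast
    ring
  -- Z depends on `T \ A x` only
  have hZ : ∀ T : Finset Ω, Z (T \ A x) = Z T := by
    intro T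
    show (univ.filter fun y => Disjoint (A x) (A y) ∧ Disjoint (A y) (T \ A x)).card =
      (univ.filter fun y => Disjoint (A x) (A y) ∧ Disjoint (A y) T).card
    congr 1
    ext y
    simp only [mem_filter, mem_univ, true_and]
    constructor
    · rintro ⟨h1, h2⟩
      refine ⟨h1, disjoint_left.2 fun a ha hT => ?_⟩
      exact disjoint_left.1 h2 ha (mem_sdiff.2 ⟨hT, fun hx => disjoint_left.1 h1 hx ha⟩)
    · rintro ⟨h1, h2⟩
      exact ⟨h1, h2.mono_right sdiff_subset⟩
  have hZsum : p * psi A t ≤ ∑ T, mm T * Real.exp (-(t * (Z T : ℝ))) := by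
    have h1 := sum_sdiff_eq (A x) (fun T => Real.exp (-(t * (Z T : ℝ))))
    simp only [hZ] at h1
    rw [hsum]
    have h2 : psi A t ≤ ∑ T : Finset Ω, Real.exp (-(t * (Z T : ℝ))) := by
      refine sum_le_sum fun T _ => ?_
      apply Real.exp_le_exp.2
      have h3 : (Z T : ℝ) ≤ (xx A T : ℝ) := by
        have : Z T ≤ xx A T := by rw [hXYZ]; omega
        exact_mod_cast this
      have := mul_le_mul_of_nonneg_left h3 ht
      linarith
    have h4 : p * (2 : ℝ) ^ (A x).card = 1 := by
      rw [hp, ← mul_pow]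
      norm_num
    calc p * psi A t ≤ p * ∑ T : Finset Ω, Real.exp (-(t * (Z T : ℝ))) :=
          mul_le_mul_of_nonneg_left h2 hp0.le
      _ = (p * (2 : ℝ) ^ (A x).card) *
            ∑ T ∈ univ.filter (fun T : Finset Ω => Disjoint (A x) T),
              Real.exp (-(t * (Z T : ℝ))) := by rw [h1]; ring
      _ = _ := by rw [h4, one_mul]
  have hYsum : P * (p - t * q) ≤ ∑ T, mm T * Real.exp (-(t * (Y T : ℝ))) := by
    have h1 : ∀ T, mm T - t * (mm T * (Y T : ℝ)) ≤ mm T * Real.exp (-(t * (Y T : ℝ))) := by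
      intro T
      have h2 := Real.add_one_le_exp (-(t * (Y T : ℝ)))
      have h3 := mul_le_mul_of_nonneg_left h2 (hmm0 T)
      nlinarith
    have h2 : ∑ T, mm T * (Y T : ℝ) = P * q := by
      have h3 : ∀ T, mm T * (Y T : ℝ) = ∑ y : X, if Disjoint (A x) (A y) then (0 : ℝ) else
          (if Disjoint (A x ∪ A y) T then (1 : ℝ) else 0) := by
        intro T
        have h4 : (Y T : ℝ) = ∑ y : X, if ¬ Disjoint (A x) (A y) ∧ Disjoint (A y) T then (1 : ℝ)
            else 0 := by
          show (((univ.filter fun y => ¬ Disjoint (A x) (A y) ∧ Disjoint (A y) T).card : ℕ) : ℝ) = _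
          rw [card_filter]
          push_cast
          rfl
        rw [h4, mul_sum]
        refine sum_congr rfl fun y _ => ?_
        show (if Disjoint (A x) T then (1 : ℝ) else 0) *
          (if ¬ Disjoint (A x) (A y) ∧ Disjoint (A y) T then (1 : ℝ) else 0) = _
        have h5 : Disjoint (A x ∪ A y) T ↔ Disjoint (A x) T ∧ Disjoint (A y) T :=
          disjoint_union_left
        by_cases c1 : Disjoint (A x) (A y)
        · have c4 : ¬ (¬ Disjoint (A x) (A y) ∧ Disjoint (A y) T) := fun h => h.1 c1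
          rw [if_pos c1, if_neg c4, mul_zero]
        · rw [if_neg c1]
          by_cases c2 : Disjoint (A x) T
          · by_cases c3 : Disjoint (A y) T
            · rw [if_pos c2, if_pos ⟨c1, c3⟩, if_pos (h5.2 ⟨c2, c3⟩), mul_one]
            · have c4 : ¬ (¬ Disjoint (A x) (A y) ∧ Disjoint (A y) T) := fun h => c3 h.2
              have c5 : ¬ Disjoint (A x ∪ A y) T := fun h => c3 (h5.1 h).2
              rw [if_pos c2, if_neg c4, if_neg c5, mul_zero]
          · have c5 : ¬ Disjoint (A x ∪ A y) T := fun h => c2 (h5.1 h).1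
            rw [if_neg c2, if_neg c5, zero_mul]
      rw [sum_congr rfl fun T _ => h3 T, sum_comm, hq, mul_sum]
      refine sum_congr rfl fun y _ => ?_
      by_cases c1 : Disjoint (A x) (A y)
      · simp only [if_pos c1, sum_const_zero, mul_zero]
      · simp only [if_neg c1]
        rw [← card_disj, card_filter]
        push_cast
        rfl
    calc P * (p - t * q) = ∑ T, (mm T - t * (mm T * (Y T : ℝ))) := by
          rw [sum_sub_distrib, ← mul_sum, h2, hm1]
          ring
      _ ≤ _ := sum_le_sum fun T _ => h1 T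
  have hfin : ∑ T, mm T * Real.exp (-(t * (xx A T : ℝ))) =
      ∑ T, mm T * (Real.exp (-(t * (Y T : ℝ))) * Real.exp (-(t * (Z T : ℝ)))) :=
    sum_congr rfl fun T _ => by rw [hexp]
  show psi A t * (p - t * q) ≤ ∑ T, mm T * Real.exp (-(t * (xx A T : ℝ)))
  rw [hfin]
  rw [hm1] at hfkg
  rcases le_or_gt (p - t * q) 0 with hneg | hpos
  · have h1 : 0 ≤ ∑ T, mm T * (Real.exp (-(t * (Y T : ℝ))) * Real.exp (-(t * (Z T : ℝ)))) :=
      sum_nonneg fun T _ => mul_nonneg (hmm0 T)
        (mul_nonneg (Real.exp_pos _).le (Real.exp_pos _).le)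
    have h2 := mul_nonpos_of_nonneg_of_nonpos hpsi hneg
    linarith
  · have h1 : (P * (p - t * q)) * (p * psi A t) ≤
        (∑ T, mm T * Real.exp (-(t * (Y T : ℝ)))) * ∑ T, mm T * Real.exp (-(t * (Z T : ℝ))) :=
      mul_le_mul hYsum hZsum (by positivity) (le_trans (by positivity) hYsum)
    have h2 := h1.trans hfkg
    have h3 : (P * p) * (psi A t * (p - t * q)) ≤
        (P * p) * ∑ T, mm T * (Real.exp (-(t * (Y T : ℝ))) * Real.exp (-(t * (Z T : ℝ)))) := by
      refine le_trans (le_of_eq ?_) h2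
      ring
    exact le_of_mul_le_mul_left h3 (by positivity)

open Classical in
/-- all points -/
theorem all_pt (A : X → Finset Ω) (μ Δ : ℝ) (hμ : μ = ∑ x, (1 / 2 : ℝ) ^ (A x).card)
    (hΔ : (∑ x, ∑ y, if Disjoint (A x) (A y) then 0 else (1 / 2 : ℝ) ^ (A x ∪ A y).card) ≤ Δ)
    (t : ℝ) (ht : 0 ≤ t) :
    psi A t * (μ - t * Δ) ≤ ∑ T : Finset Ω, (xx A T : ℝ) * Real.exp (-(t * xx A T)) := by
  have hpsi : 0 ≤ psi A t := sum_nonneg fun T _ => (Real.exp_pos _).le
  have h1 : ∑ T : Finset Ω, (xx A T : ℝ) * Real.exp (-(t * xx A T)) =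
      ∑ x, ∑ T : Finset Ω,
        (if Disjoint (A x) T then (1 : ℝ) else 0) * Real.exp (-(t * xx A T)) := by
    rw [sum_comm]
    refine sum_congr rfl fun T _ => ?_
    rw [← sum_mul]
    congr 1
    show (((univ.filter fun x => Disjoint (A x) T).card : ℕ) : ℝ) = _
    rw [card_filter]
    push_cast
    rfl
  rw [h1]
  have h2 : ∑ x, psi A t * ((1 / 2 : ℝ) ^ (A x).card -
        t * ∑ y, if Disjoint (A x) (A y) then 0 else (1 / 2 : ℝ) ^ (A x ∪ A y).card) ≤
      ∑ x, ∑ T : Finset Ω,
        (if Disjoint (A x) T then (1 : ℝ) else 0) * Real.exp (-(t * xx A T)) :=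
    sum_le_sum fun x _ => one_pt A x t ht
  refine le_trans ?_ h2
  rw [← mul_sum, sum_sub_distrib, ← mul_sum, ← hμ]
  apply mul_le_mul_of_nonneg_left _ hpsi
  have := mul_le_mul_of_nonneg_left hΔ ht
  linarith

theorem hasDeriv_psi (A : X → Finset Ω) (t : ℝ) :
    HasDerivAt (psi A) (-∑ T : Finset Ω, (xx A T : ℝ) * Real.exp (-(t * xx A T))) t := by
  have h1 : ∀ T : Finset Ω, HasDerivAt (fun t : ℝ => Real.exp (-(t * xx A T)))
      (Real.exp (-(t * xx A T)) * (-(1 * (xx A T : ℝ)))) t := fun T =>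
    (((hasDerivAt_id t).mul_const (xx A T : ℝ)).neg).exp
  have h2 := HasDerivAt.fun_sum (u := (univ : Finset (Finset Ω))) fun T _ => h1 T
  have h3 : (∑ T : Finset Ω, Real.exp (-(t * xx A T)) * (-(1 * (xx A T : ℝ)))) =
      -∑ T : Finset Ω, (xx A T : ℝ) * Real.exp (-(t * xx A T)) := by
    rw [← sum_neg_distrib]
    exact sum_congr rfl fun T _ => by ring
  rw [← h3]
  exact h2

open Classical in
theorem psi_le (A : X → Finset Ω) (μ Δ : ℝ) (hμ : μ = ∑ x, (1 / 2 : ℝ) ^ (A x).card)
    (hΔ : (∑ x, ∑ y, if Disjoint (A x) (A y) then 0 else (1 / 2 : ℝ) ^ (A x ∪ A y).card) ≤ Δ)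
    (t : ℝ) (ht : 0 ≤ t) :
    psi A t * Real.exp (μ * t - Δ * t ^ 2 / 2) ≤ 2 ^ Fintype.card Ω := by
  let g : ℝ → ℝ := fun t => psi A t * Real.exp (μ * t - Δ * t ^ 2 / 2)
  have hd : ∀ s : ℝ, HasDerivAt g
      ((-∑ T : Finset Ω, (xx A T : ℝ) * Real.exp (-(s * xx A T))) *
          Real.exp (μ * s - Δ * s ^ 2 / 2) +
        psi A s * (Real.exp (μ * s - Δ * s ^ 2 / 2) * (μ - Δ * s))) s := by
    intro s
    have h1 : HasDerivAt (fun s : ℝ => μ * s - Δ * s ^ 2 / 2) (μ - Δ * s) s := by
      have h2 := ((hasDerivAt_id s).const_mul μ).sub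
        ((((hasDerivAt_id s).pow 2).const_mul Δ).div_const 2)
      refine HasDerivAt.congr_deriv h2 ?_
      simp only [id]
      push_cast
      ring
    exact (hasDeriv_psi A s).mul h1.exp
  have hanti : AntitoneOn g (Set.Ici 0) := by
    refine antitoneOn_of_deriv_nonpos (convex_Ici 0)
      (fun s _ => (hd s).continuousAt.continuousWithinAt)
      (fun s _ => (hd s).differentiableAt.differentiableWithinAt) ?_
    intro s hs
    rw [interior_Ici] at hs
    rw [(hd s).deriv]
    have h1 := all_pt A μ Δ hμ hΔ s (le_of_lt hs)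
    have h2 := mul_le_mul_of_nonneg_right h1 (Real.exp_pos (μ * s - Δ * s ^ 2 / 2)).le
    nlinarith
  have h0 : g t ≤ g 0 := hanti (Set.mem_Ici.2 le_rfl) (Set.mem_Ici.2 ht) ht
  refine h0.trans (le_of_eq ?_)
  show psi A 0 * Real.exp (μ * 0 - Δ * 0 ^ 2 / 2) = _
  have h3 : psi A 0 = 2 ^ Fintype.card Ω := by
    show ∑ T : Finset Ω, Real.exp (-(0 * (xx A T : ℝ))) = _
    simp only [zero_mul, neg_zero, Real.exp_zero, sum_const, nsmul_eq_mul, mul_one]
    rw [card_univ, Fintype.card_finset]
    push_cast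
    rfl
  rw [h3]
  norm_num

end

theorem pf_JAN : T_JAN := by
  classical
  intro Ω X _ _ A μ Δ hΔ0 hμ hΔ
  have hμ0 : 0 ≤ μ := by
    rw [hμ]
    exact sum_nonneg fun x _ => by positivity
  set t : ℝ := μ / (2 * Δ) with ht
  have ht0 : 0 ≤ t := by positivity
  have hpsi := psi_le A μ Δ hμ hΔ t ht0
  set S : Finset (Finset Ω) := univ.filter fun T : Finset Ω =>
    (2 : ℝ) * (univ.filter fun x => Disjoint (A x) T).card ≤ μ with hS
  have h1 : (S.card : ℝ) * Real.exp (-(t * (μ / 2))) ≤ psi A t := by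
    have h2 : ∑ T ∈ S, Real.exp (-(t * (μ / 2))) ≤ ∑ T ∈ S, Real.exp (-(t * xx A T)) := by
      refine sum_le_sum fun T hT => ?_
      apply Real.exp_le_exp.2
      have h3 : (2 : ℝ) * (univ.filter fun x => Disjoint (A x) T).card ≤ μ := (mem_filter.1 hT).2
      have h4 : (xx A T : ℝ) ≤ μ / 2 := by
        show (((univ.filter fun x => Disjoint (A x) T).card : ℕ) : ℝ) ≤ μ / 2
        linarith
      have := mul_le_mul_of_nonneg_left h4 ht0
      linarith
    rw [sum_const, nsmul_eq_mul] at h2
    refine h2.trans ?_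
    exact sum_le_sum_of_subset_of_nonneg (subset_univ S) fun T _ _ => (Real.exp_pos _).le
  have h5 : (S.card : ℝ) * Real.exp (-(t * (μ / 2))) * Real.exp (μ * t - Δ * t ^ 2 / 2) ≤
      2 ^ Fintype.card Ω :=
    (mul_le_mul_of_nonneg_right h1 (Real.exp_pos _).le).trans hpsi
  have h6 : Real.exp (-(t * (μ / 2))) * Real.exp (μ * t - Δ * t ^ 2 / 2) =
      Real.exp (μ ^ 2 / (8 * Δ)) := by
    rw [← Real.exp_add]
    congr 1
    rw [ht]
    field_simp
    ring
  rw [mul_assoc, h6] at h5
  have h7 : 0 < Real.exp (μ ^ 2 / (8 * Δ)) := Real.exp_pos _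
  rw [Real.exp_neg, ← div_eq_mul_inv, le_div_iff₀ h7]
  exact h5

end Pool.Agent.H16.PRY
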